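import Pool.Agent.Y195.CB.JLX
import Pool.Agent.Y807.CB.Sigt
import Pool.Agent.W709.RT.Alg

/-!
# The matrix of the Casimir operator and of its polynomials
-/

set_option autoImplicit false

namespace Pool.Agent.Y624.DR

open Finset Matrix Pool.Agent.H550R3.Jones Pool.Agent.Y472
open scoped Kronecker

/-! ### Polynomials -/

theorem dl_T2 {N : ℕ} (q : Fin N × Fin N) : dl q.1 q.2 ∈ T2 N := by
  intro a b h
  unfold dl
  rw [if_neg]
  rintro ⟨h1, h2⟩
  have i1 := q.1.2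
  have i2 := q.2.2
  omega

theorem mx_mul {N : ℕ} (A B : V2 →ₗ[ℂ] V2) (hB : ∀ x ∈ T2 N, B x ∈ T2 N) :
    mx N (A * B) = mx N A * mx N B := by
  ext p q
  rw [Matrix.mul_apply, Fintype.sum_prod_type]
  exact Pool.Agent.Y195.CB.apply_expand N A (B (dl q.1 q.2)) (hB _ (dl_T2 q)) p.1 p.2

theorem mx_one {N : ℕ} : mx N 1 = 1 := by
  ext p q
  show dl q.1 q.2 p.1 p.2 = _
  unfold dl
  rw [Matrix.one_apply]
  by_cases h : p = q
  · subst h; simp
  · rw [if_neg h, if_neg]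
    rintro ⟨h1, h2⟩
    exact h (Prod.ext (Fin.ext h1) (Fin.ext h2))

theorem mx_pow {N : ℕ} (A : V2 →ₗ[ℂ] V2) (hA : ∀ x ∈ T2 N, A x ∈ T2 N) (k : ℕ) :
    mx N (A ^ k) = mx N A ^ k := by
  induction k with
  | zero => rw [pow_zero, pow_zero, mx_one]
  | succ k ih => rw [pow_succ, pow_succ, mx_mul _ _ hA, ih]

theorem mx_add {N : ℕ} (A B : V2 →ₗ[ℂ] V2) : mx N (A + B) = mx N A + mx N B := rfl

theorem mx_smul {N : ℕ} (c : ℂ) (A : V2 →ₗ[ℂ] V2) : mx N (c • A) = c • mx N A := rfl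

theorem mx_zero {N : ℕ} : mx N 0 = 0 := rfl

theorem mx_aeval {N : ℕ} (A : V2 →ₗ[ℂ] V2) (hA : ∀ x ∈ T2 N, A x ∈ T2 N) (P : Polynomial ℂ) :
    mx N (Polynomial.aeval A P) = Polynomial.aeval (mx N A) P := by
  induction P using Polynomial.induction_on' with
  | add p q hp hq => rw [map_add, map_add, mx_add, hp, hq]
  | monomial n a =>
    rw [Polynomial.aeval_monomial, Polynomial.aeval_monomial, ← Algebra.smul_def,
      ← Algebra.smul_def, mx_smul, mx_pow A hA]

/-! ### The Casimir operator -/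

section cas

variable {N : ℕ} {v : ℂ}

theorem lb_br (hv : v ≠ 0) (a : ℕ) : lb v (v ^ N) (-1 - a) = br v ((N : ℤ) - 1 - a) := by
  unfold lb cb br
  have h : v ^ N * v ^ (-1 - (a : ℤ)) = v ^ ((N : ℤ) - 1 - a) := by
    rw [← zpow_natCast, ← zpow_add₀ hv]
    congr 1
    ring
  rw [h, _root_.zpow_neg]

theorem KK_eq (hv : v ≠ 0) (b : ℕ) : KK v (v ^ N) b = v ^ ((N : ℤ) - 1 - 2 * b) := by
  unfold KK
  rw [← zpow_natCast, ← zpow_add₀ hv]
  congr 1
  ring

theorem irrE (i j : Fin N) : (irr v N).E i j =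
    if (j : ℕ) = i + 1 then br v ((N : ℤ) - (j : ℕ)) else 0 := rfl

theorem irrF (i j : Fin N) : (irr v N).F i j =
    if (i : ℕ) = j + 1 then br v ((i : ℕ) : ℤ) else 0 := rfl

theorem irrwt (i : Fin N) : (irr v N).wt i = (N : ℤ) - 1 - 2 * (i : ℕ) := rfl

theorem E_entry (hv : v ≠ 0) (r q : Fin N × Fin N) :
    (W v N).E r q = E2 v (v ^ N) (dl q.1 q.2) r.1 r.2 := by
  have h1 : (W v N).E r q = (irr v N).E r.1 q.1 * (irr v N).K v 1 r.2 q.2 +
      (1 : Matrix (Fin N) (Fin N) ℂ) r.1 q.1 * (irr v N).E r.2 q.2 := rfl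
  have h2 : E2 v (v ^ N) (dl q.1 q.2) r.1 r.2 =
      lb v (v ^ N) (-1 - (r.1 : ℕ)) * KK v (v ^ N) r.2 *
        (if (r.1 : ℕ) + 1 = q.1 ∧ (r.2 : ℕ) = q.2 then 1 else 0) +
      lb v (v ^ N) (-1 - (r.2 : ℕ)) * (if (r.1 : ℕ) = q.1 ∧ (r.2 : ℕ) + 1 = q.2 then 1 else 0) := rfl
  rw [h1, h2, irrE, irrE, WM.K, Matrix.diagonal_apply, Matrix.one_apply, lb_br hv, lb_br hv, KK_eq hv,
    irrwt]
  congr 1
  · by_cases ha : (q.1 : ℕ) = r.1 + 1
    · rw [if_pos ha]
      by_cases hb : r.2 = q.2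
      · rw [if_pos hb, if_pos ⟨ha.symm, congrArg Fin.val hb⟩, mul_one, one_mul]
        congr 2
        rw [ha]
        push_cast
        ring
      · rw [if_neg hb, if_neg, mul_zero, mul_zero]
        rintro ⟨_, h⟩
        exact hb (Fin.ext h)
    · rw [if_neg ha, zero_mul, if_neg (fun h => ha h.1.symm), mul_zero]
  · by_cases ha : r.1 = q.1
    · rw [if_pos ha, one_mul]
      by_cases hb : (q.2 : ℕ) = r.2 + 1
      · rw [if_pos hb, if_pos ⟨congrArg Fin.val ha, hb.symm⟩, mul_one]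
        congr 1
        rw [hb]
        push_cast
        ring
      · rw [if_neg hb, if_neg, mul_zero]
        rintro ⟨_, h⟩
        exact hb h.symm
    · rw [if_neg ha, zero_mul, if_neg (fun h => ha (Fin.ext h.1)), mul_zero]

theorem F_entry (hv : v ≠ 0) (x : V2) (p : Fin N × Fin N) :
    ∑ r : Fin N × Fin N, (W v N).F p r * x r.1 r.2 = F2 v (v ^ N) x p.1 p.2 := by
  have h1 : ∀ r : Fin N × Fin N, (W v N).F p r = (irr v N).F p.1 r.1 *
      (1 : Matrix (Fin N) (Fin N) ℂ) p.2 r.2 +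
      (irr v N).K v (-1) p.1 r.1 * (irr v N).F p.2 r.2 := fun r => rfl
  have h2 : F2 v (v ^ N) x p.1 p.2 = qi v (p.1 : ℕ) * x ((p.1 : ℕ) - 1) p.2 +
      (KK v (v ^ N) p.1)⁻¹ * qi v (p.2 : ℕ) * x p.1 ((p.2 : ℕ) - 1) := rfl
  have hF : ∀ (a : Fin N) (y : ℕ → ℂ), ∑ r : Fin N, (irr v N).F a r * y r =
      qi v (a : ℕ) * y ((a : ℕ) - 1) := by
    intro a y
    rcases Nat.eq_zero_or_pos (a : ℕ) with h0 | h0
    · have hq : qi v ((a : ℕ) : ℤ) = 0 := by
        unfold qi cb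
        rw [h0]
        simp
      rw [hq, zero_mul]
      refine Finset.sum_eq_zero fun r _ => ?_
      rw [irrF, if_neg (by omega), zero_mul]
    · rw [Finset.sum_eq_single (⟨(a : ℕ) - 1, by omega⟩ : Fin N)]
      · rw [irrF, if_pos (by simp; omega)]
        congr 1
        unfold br qi cb
        rw [_root_.zpow_neg]
      · intro r _ hr
        rw [irrF, if_neg, zero_mul]
        intro h
        apply hr
        apply Fin.ext
        simp only
        omega
      · intro h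
        exact absurd (Finset.mem_univ _) h
  rw [h2, Fintype.sum_prod_type]
  simp only [h1, add_mul, Finset.sum_add_distrib]
  congr 1
  · rw [← hF p.1 (fun a => x a p.2)]
    refine Finset.sum_congr rfl fun r _ => ?_
    rw [Finset.sum_eq_single p.2]
    · rw [Matrix.one_apply_eq, mul_one]
    · intro s _ hs
      rw [Matrix.one_apply_ne (Ne.symm hs), mul_zero, zero_mul]
    · intro h
      exact absurd (Finset.mem_univ _) h
  · rw [Finset.sum_eq_single p.1]
    · rw [mul_assoc, ← hF p.2 (fun b => x p.1 b), Finset.mul_sum]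
      refine Finset.sum_congr rfl fun r _ => ?_
      rw [WM.K, Matrix.diagonal_apply_eq, KK_eq hv, irrwt, ← _root_.zpow_neg, mul_assoc]
      congr 2
      ring
    · intro s _ hs
      refine Finset.sum_eq_zero fun r _ => ?_
      rw [WM.K, Matrix.diagonal_apply_ne _ (Ne.symm hs), zero_mul, zero_mul]
    · intro h
      exact absurd (Finset.mem_univ _) h

theorem mx_cas (hv : v ≠ 0) : mx N (cas v (v ^ N)) = Pool.Agent.W709.RT.cas v (W v N) := by
  ext p q
  have h1 : mx N (cas v (v ^ N)) p q = F2 v (v ^ N) (E2 v (v ^ N) (dl q.1 q.2)) p.1 p.2 +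
      (v * KK v (v ^ N) p.1 * KK v (v ^ N) p.2 + (v * KK v (v ^ N) p.1 * KK v (v ^ N) p.2)⁻¹) *
        dl q.1 q.2 p.1 p.2 := rfl
  have h2 : Pool.Agent.W709.RT.cas v (W v N) p q = ∑ r, (W v N).F p r * (W v N).E r q +
      v * (W v N).K v 1 p q + v⁻¹ * (W v N).K v (-1) p q := rfl
  have h3 : dl (q.1 : ℕ) (q.2 : ℕ) p.1 p.2 = if p = q then 1 else 0 := by
    have := congrFun (congrFun (mx_one (N := N)) p) q
    rw [Matrix.one_apply] at this
    exact this
  rw [h1, h2, ← F_entry hv, h3, add_assoc]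
  congr 1
  · refine Finset.sum_congr rfl fun r _ => ?_
    rw [E_entry hv]
  · have hwt : (W v N).wt p = ((N : ℤ) - 1 - 2 * (p.1 : ℕ)) + ((N : ℤ) - 1 - 2 * (p.2 : ℕ)) := rfl
    rw [WM.K, WM.K, Matrix.diagonal_apply, Matrix.diagonal_apply, KK_eq hv, KK_eq hv]
    by_cases h : p = q
    · rw [if_pos h, if_pos h, if_pos h, hwt, mul_one, mul_inv, mul_inv, one_mul, neg_one_mul,
        zpow_add₀ hv, _root_.zpow_neg, zpow_add₀ hv, mul_inv]
      ring
    · rw [if_neg h, if_neg h, if_neg h]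
      ring

end cas

end Pool.Agent.Y624.DR
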