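import Pool.Agent.Y624.DR.Dvd
import Pool.Agent.Y624.DR.Cas
import Pool.Agent.Y481.DR.Defs
import Pool.Agent.TH639.J28
import Pool.Agent.W885.AR.Lmr
import Pool.Agent.Y686.CB.Gda
import Pool.Agent.W709.RT.Main2

/-!
# DR-TPL: the operator of a tree is a polynomial of the Casimir operator
-/

set_option autoImplicit false

namespace Pool.Agent.Y624.DR

open Finset Filter Topology Polynomial
open Pool.Agent.H550R3.Jones (IsDec Gen cc br W)
open Pool.Agent.W711.HT (vN un upp Rp kr Ea)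
open Pool.Agent.W719.AR (dd ps Lm)
open Pool.Agent.TH563.UV (Tb op XX Eb kb)
open Pool.Agent.TH639.J28 (evb Kt)
open Pool.Agent.Y472 (mx cas uu T2)
open scoped Real

/-! ### The polynomial -/

/-- the interpolation polynomial, Newton form -/
noncomputable def NP (N : ℕ) (v : ℂ) (a : ℕ → ℂ) : ℂ[X] :=
  ∑ i ∈ range N, Polynomial.C (a i) * Lagrange.nodal (range i) (un v)

theorem NP_deg {N : ℕ} (hN : 0 < N) (v : ℂ) (a : ℕ → ℂ) : (NP N v a).natDegree < N := by
  have h : (NP N v a).natDegree ≤ N - 1 := by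
    unfold NP
    refine Polynomial.natDegree_sum_le_of_forall_le _ _ fun i hi => ?_
    rw [Finset.mem_range] at hi
    refine (Polynomial.natDegree_C_mul_le _ _).trans ?_
    rw [Lagrange.natDegree_nodal, Finset.card_range]
    omega
  omega

theorem NP_eval {N : ℕ} {v : ℂ} (hinj : Set.InjOn (un v) (range N)) (x : ℕ → ℂ) {c : ℕ}
    (hc : c < N) : (NP N v (dd v x)).eval (un v c) = x c := by
  rw [Pool.Agent.W709.RT.newton (un v) x N hinj c hc]
  unfold NP
  rw [Polynomial.eval_finsetSum]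
  refine Finset.sum_congr rfl fun i _ => ?_
  rw [Polynomial.eval_mul, Polynomial.eval_C, Lagrange.eval_nodal]
  congr 1
  exact (Pool.Agent.W637.AR.dd_eq v x i).symm

theorem nodal_PT {l : Filter ℂ} (s : Finset ℕ) {y : ℂ → ℕ → ℂ} {y0 : ℕ → ℂ}
    (h : ∀ i ∈ s, Tendsto (fun v => y v i) l (𝓝 (y0 i))) :
    PT l (fun v => Lagrange.nodal s (y v)) (Lagrange.nodal s y0) :=
  PT.prod s fun i hi => (PT.const l X).sub (PT.C (h i hi))

theorem un_tend (N k : ℕ) : Tendsto (fun v => un v k) (𝓝[≠] vN N) (𝓝 (un (vN N) k)) :=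
  (Pool.Agent.W885.AR.un_cont N k).tendsto.mono_left nhdsWithin_le_nhds

theorem NP_PT {N : ℕ} {a : ℂ → ℕ → ℂ} {a0 : ℕ → ℂ}
    (h : ∀ n < N, Tendsto (fun v => a v n) (𝓝[≠] vN N) (𝓝 (a0 n))) :
    PT (𝓝[≠] vN N) (fun v => NP N v (a v)) (NP N (vN N) a0) := by
  unfold NP
  exact PT.sum (range N) fun i hi => (PT.C (h i (Finset.mem_range.1 hi))).mul
    (nodal_PT (range i) fun j _ => un_tend N j)

/-! ### Generic `v` -/

theorem Fn_PP {N : ℕ} {u : ℂ} {φ ψ} (hu : u ≠ 0) (h : IsDec u N φ ψ) (i : ℕ) :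
    Pool.Agent.W709.RT.Fn φ ψ (Pool.Agent.W709.RT.PP (u ^ 2) N i) =
      Polynomial.aeval (Pool.Agent.W709.RT.cas (u ^ 2) (W (u ^ 2) N))
        (Lagrange.nodal (range i) (un (u ^ 2))) := by
  induction i with
  | zero =>
    have : Pool.Agent.W709.RT.PP (u ^ 2) N 0 = fun _ => 1 := by
      funext d; simp [Pool.Agent.W709.RT.PP]
    rw [this, Pool.Agent.W709.RT.Fn_one h]
    simp
  | succ i ih =>
    have h1 : Pool.Agent.W709.RT.PP (u ^ 2) N (i + 1) = fun d =>
        (Pool.Agent.W709.RT.UU (u ^ 2) N d - un (u ^ 2) i) *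
          Pool.Agent.W709.RT.PP (u ^ 2) N i d := by
      funext d
      unfold Pool.Agent.W709.RT.PP
      rw [Finset.prod_range_succ]
      exact mul_comm _ _
    rw [h1, Pool.Agent.W709.RT.Fn_mul h, ← Pool.Agent.W709.RT.cas_sub hu h, ih, Finset.range_add_one,
      Lagrange.nodal_insert_eq_nodal Finset.notMem_range_self, map_mul, map_sub,
      Polynomial.aeval_X, Polynomial.aeval_C, Algebra.algebraMap_eq_smul_one]

theorem op_generic {N : ℕ} {u : ℂ} (hu : Gen u) (t : Tb) :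
    op N (u ^ 2) t = Polynomial.aeval (Pool.Agent.W709.RT.cas (u ^ 2) (W (u ^ 2) N))
      (NP N (u ^ 2) (dd (u ^ 2) (evb N (u ^ 2) t))) := by
  obtain ⟨φ, ψ, hd⟩ := Pool.Agent.H897R.J.taskDec Pool.Agent.H345J.taskMod
    Pool.Agent.H345J.taskInt u hu N
  have h1 := Pool.Agent.W709.RT.Fn_eq hd (op N (u ^ 2) t)
    (fun d => evb N (u ^ 2) t (N - 1 - d))
    (Pool.Agent.TH639.J28.op_eig Pool.Agent.W637.AR.rote u hu N hd t)
  rw [h1, Pool.Agent.W709.RT.Fn_newton (Pool.Agent.W709.RT.ui_inj hu) (evb N (u ^ 2) t)]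
  unfold NP
  rw [map_sum]
  refine Finset.sum_congr rfl fun i _ => ?_
  rw [Fn_PP hu.1 hd, map_mul, Polynomial.aeval_C, Algebra.algebraMap_eq_smul_one, smul_mul_assoc,
    one_mul, Pool.Agent.W637.AR.dd_eq]

/-! ### Continuity -/

theorem br_cont (k : ℤ) {v : ℂ} (hv : v ≠ 0) : ContinuousAt (fun v => br v k) v := by
  unfold br
  exact (continuousAt_zpow₀ _ _ (Or.inl hv)).sub (continuousAt_zpow₀ _ _ (Or.inl hv))

theorem irrE_cont {N : ℕ} (i j : Fin N) {v : ℂ} (hv : v ≠ 0) :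
    ContinuousAt (fun v => (Pool.Agent.H550R3.Jones.irr v N).E i j) v := by
  simp only [irrE]
  by_cases h : (j : ℕ) = i + 1
  · simp only [if_pos h]; exact br_cont _ hv
  · simp only [if_neg h]; exact continuousAt_const

theorem irrF_cont {N : ℕ} (i j : Fin N) {v : ℂ} (hv : v ≠ 0) :
    ContinuousAt (fun v => (Pool.Agent.H550R3.Jones.irr v N).F i j) v := by
  simp only [irrF]
  by_cases h : (i : ℕ) = j + 1
  · simp only [if_pos h]; exact br_cont _ hv
  · simp only [if_neg h]; exact continuousAt_const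

theorem K_cont {ι : Type} [DecidableEq ι] [Fintype ι] (M : ℂ → Pool.Agent.H550R3.Jones.WM ι)
    (w : ι → ℤ) (hM : ∀ v, (M v).wt = w) (e : ℤ) (i j : ι) {v : ℂ} (hv : v ≠ 0) :
    ContinuousAt (fun v => (M v).K v e i j) v := by
  unfold Pool.Agent.H550R3.Jones.WM.K
  simp only [Matrix.diagonal_apply, hM]
  by_cases h : i = j
  · simp only [if_pos h]; exact continuousAt_zpow₀ _ _ (Or.inl hv)
  · simp only [if_neg h]; exact continuousAt_const

theorem cas_cont {N : ℕ} {v : ℂ} (hv : v ≠ 0) :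
    ContinuousAt (fun v => Pool.Agent.W709.RT.cas v (W v N)) v := by
  have hE : ∀ p q : Fin N × Fin N, ContinuousAt (fun v => (W v N).E p q) v := by
    intro p q
    have h1 : ∀ v, (W v N).E p q = (Pool.Agent.H550R3.Jones.irr v N).E p.1 q.1 *
      (Pool.Agent.H550R3.Jones.irr v N).K v 1 p.2 q.2 +
      (1 : Matrix (Fin N) (Fin N) ℂ) p.1 q.1 * (Pool.Agent.H550R3.Jones.irr v N).E p.2 q.2 :=
      fun v => rfl
    simp only [h1]
    exact ((irrE_cont _ _ hv).mul (K_cont (fun v => Pool.Agent.H550R3.Jones.irr v N) _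
      (fun v => rfl) 1 _ _ hv)).add (continuousAt_const.mul (irrE_cont _ _ hv))
  have hF : ∀ p q : Fin N × Fin N, ContinuousAt (fun v => (W v N).F p q) v := by
    intro p q
    have h1 : ∀ v, (W v N).F p q = (Pool.Agent.H550R3.Jones.irr v N).F p.1 q.1 *
      (1 : Matrix (Fin N) (Fin N) ℂ) p.2 q.2 +
      (Pool.Agent.H550R3.Jones.irr v N).K v (-1) p.1 q.1 *
        (Pool.Agent.H550R3.Jones.irr v N).F p.2 q.2 :=
      fun v => rfl
    simp only [h1]
    exact ((irrF_cont _ _ hv).mul continuousAt_const).add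
      ((K_cont (fun v => Pool.Agent.H550R3.Jones.irr v N) _ (fun v => rfl) (-1) _ _ hv).mul
        (irrF_cont _ _ hv))
  refine continuousAt_pi.2 fun p => continuousAt_pi.2 fun q => ?_
  have h2 : ∀ v, Pool.Agent.W709.RT.cas v (W v N) p q = ∑ r, (W v N).F p r * (W v N).E r q +
      v * (W v N).K v 1 p q + v⁻¹ * (W v N).K v (-1) p q := fun v => rfl
  simp only [h2]
  refine ContinuousAt.add (ContinuousAt.add ?_ ?_) ?_
  · exact tendsto_finsetSum _ fun r _ => (hF p r).mul (hE r q)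
  · exact continuousAt_id.mul (K_cont (fun v => W v N) (fun p => ((N : ℤ) - 1 - 2 * (p.1 : ℕ)) +
      ((N : ℤ) - 1 - 2 * (p.2 : ℕ))) (fun v => rfl) 1 _ _ hv)
  · exact (continuousAt_inv₀ hv).mul (K_cont (fun v => W v N) (fun p => ((N : ℤ) - 1 - 2 * (p.1 : ℕ)) +
      ((N : ℤ) - 1 - 2 * (p.2 : ℕ))) (fun v => rfl) (-1) _ _ hv)

/-! ### The limit -/

/-- the limits of the divided differences -/
noncomputable def LL (N : ℕ) (t : Tb) (n : ℕ) : ℂ :=
  Complex.I / (2 * π) * (-1) ^ (N - 1 - n) *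
    upp (1 / N) fun ψ => Kt N t * (Eb t.bl t.wt N ψ * XX t N ψ) * Rp N (N - 1 - n) ψ * kr N ψ

theorem lm_t {N : ℕ} (hN : 2 ≤ N) (t : Tb) :
    Lm N (fun v c => evb N v t c) (fun ψ => Kt N t * (Eb t.bl t.wt N ψ * XX t N ψ)) :=
  Pool.Agent.TH639.J28.lm_tree
    (Pool.Agent.W885.AR.lmr Pool.Agent.W490.AR.lmd Pool.Agent.W12.AR.gam_lim)
    Pool.Agent.W199.AR.lmv Pool.Agent.W719.AR.lmm N hN t

/-- the polynomial of a tree -/
noncomputable def PL (N : ℕ) (t : Tb) : ℂ[X] := NP N (vN N) (LL N t)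

theorem PT_PL {N : ℕ} (hN : 2 ≤ N) (t : Tb) :
    PT (𝓝[≠] vN N) (fun v => NP N v (dd v (evb N v t))) (PL N t) :=
  NP_PT fun n hn => Pool.Agent.W490.AR.lmd N _ _ hN (lm_t hN t) n hn

theorem nebot (N : ℕ) : (𝓝[{v : ℂ | ‖v‖ ≠ 1}] (vN N)).NeBot := by
  have hnorm : ‖vN N‖ = 1 := by
    unfold vN
    have : (π : ℂ) * Complex.I / N = ((π / N : ℝ) : ℂ) * Complex.I := by
      push_cast
      ring
    rw [this, Complex.norm_exp_ofReal_mul_I]
  rw [← mem_closure_iff_nhdsWithin_neBot, Metric.mem_closure_iff]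
  intro ε hε
  refine ⟨((1 + ε / 2 : ℝ) : ℂ) * vN N, ?_, ?_⟩
  · simp only [Set.mem_ofPred_eq, norm_mul, hnorm, mul_one, Complex.norm_real, Real.norm_eq_abs]
    rw [abs_of_pos (by linarith)]
    linarith
  · rw [dist_eq_norm]
    have : vN N - ((1 + ε / 2 : ℝ) : ℂ) * vN N = ((-(ε / 2) : ℝ) : ℂ) * vN N := by
      push_cast
      ring
    rw [this, norm_mul, hnorm, mul_one, Complex.norm_real, Real.norm_eq_abs, abs_neg,
      abs_of_pos (by linarith)]
    linarith

theorem nle (N : ℕ) : 𝓝[{v : ℂ | ‖v‖ ≠ 1}] (vN N) ≤ 𝓝[≠] (vN N) := by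
  have hnorm : ‖vN N‖ = 1 := by
    unfold vN
    have : (π : ℂ) * Complex.I / N = ((π / N : ℝ) : ℂ) * Complex.I := by
      push_cast
      ring
    rw [this, Complex.norm_exp_ofReal_mul_I]
  apply nhdsWithin_mono
  intro v hv hc
  rw [Set.mem_singleton_iff] at hc
  apply hv
  rw [hc, hnorm]

theorem op_PL {N : ℕ} (hN : 2 ≤ N) (t : Tb) :
    mx N (Polynomial.aeval (cas (vN N) (-1)) (PL N t)) = op N (vN N) t := by
  have hv0 : vN N ≠ 0 := Complex.exp_ne_zero _
  have hR := Pool.Agent.Y195.CB.rtv N hN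
  have hS := Pool.Agent.Y807.CB.sigt N (vN N) (-1) hR (by norm_num)
  rw [mx_aeval _ hS.2.2.2.2.1]
  have h1 : mx N (cas (vN N) (-1)) = Pool.Agent.W709.RT.cas (vN N) (W (vN N) N) := by
    rw [← mx_cas hv0, hR.neg]
  rw [h1]
  haveI := nebot N
  have hdeg : ∀ v a, (NP N v a).natDegree < N := fun v a => NP_deg (by omega) v a
  have h2 : Tendsto (fun v => Polynomial.aeval (Pool.Agent.W709.RT.cas v (W v N))
      (NP N v (dd v (evb N v t)))) (𝓝[{v : ℂ | ‖v‖ ≠ 1}] (vN N))
      (𝓝 (Polynomial.aeval (Pool.Agent.W709.RT.cas (vN N) (W (vN N) N)) (PL N t))) := by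
    have e1 : ∀ v : ℂ, Polynomial.aeval (Pool.Agent.W709.RT.cas v (W v N))
        (NP N v (dd v (evb N v t))) = ∑ i ∈ range N, (NP N v (dd v (evb N v t))).coeff i •
          Pool.Agent.W709.RT.cas v (W v N) ^ i := fun v =>
      Polynomial.aeval_eq_sum_range' (hdeg _ _) _
    have e2 : Polynomial.aeval (Pool.Agent.W709.RT.cas (vN N) (W (vN N) N)) (PL N t) =
        ∑ i ∈ range N, (PL N t).coeff i • Pool.Agent.W709.RT.cas (vN N) (W (vN N) N) ^ i :=
      Polynomial.aeval_eq_sum_range' (hdeg _ _) _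
    simp only [e1]
    rw [e2]
    refine tendsto_finsetSum _ fun i _ => ?_
    refine Tendsto.smul ((PT_PL hN t i).mono_left (nle N)) ?_
    exact ((cas_cont hv0).tendsto.mono_left nhdsWithin_le_nhds).pow i
  have h3 : Tendsto (fun v => op N v t) (𝓝[{v : ℂ | ‖v‖ ≠ 1}] (vN N)) (𝓝 (op N (vN N) t)) := by
    have h4 : ContinuousAt (fun v => op N v t) (vN N) := by
      refine continuousAt_pi.2 fun p => continuousAt_pi.2 fun q => ?_
      exact Pool.Agent.TH639.J28.op_cont (Pool.Agent.W749.BS.v0_ne N)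
        (fun k h1 h2 => Pool.Agent.W749.BS.br_v0_ne h1 h2) t p q
    exact h4.tendsto.mono_left nhdsWithin_le_nhds
  refine tendsto_nhds_unique h2 (h3.congr' ?_)
  have hv1 : ∀ᶠ v in 𝓝[{v : ℂ | ‖v‖ ≠ 1}] (vN N), v ≠ 0 :=
    nhdsWithin_le_nhds (isOpen_ne.mem_nhds hv0)
  filter_upwards [self_mem_nhdsWithin, hv1] with v hv hv'
  obtain ⟨u, hu, hg⟩ := Pool.Agent.W803.AR.gen_off hv' hv
  rw [← hu]
  exact op_generic hg t

/-! ### The divided differences -/

theorem un_inj_ev (N : ℕ) : ∀ᶠ v in 𝓝[≠] vN N, Set.InjOn (un v) (range N) := by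
  have h1 : ∀ᶠ v in 𝓝[≠] vN N, ∀ c ∈ range N, ∀ j ∈ range N, c ≠ j → un v c - un v j ≠ 0 := by
    rw [Filter.eventually_all_finset]
    intro c _
    rw [Filter.eventually_all_finset]
    intro j _
    by_cases hcj : c = j
    · exact Eventually.of_forall fun v h => absurd hcj h
    · filter_upwards [Pool.Agent.W885.AR.un_ev N c j hcj] with v hv _
      exact hv
  filter_upwards [h1] with v hv c hc j hj h
  by_contra hne
  exact hv c hc j hj hne (sub_eq_zero.2 h)

theorem dd_shift {N : ℕ} {v : ℂ} (hinj : Set.InjOn (un v) (range N)) (x : ℕ → ℂ) {a b : ℕ}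
    (hab : a ≤ b) (hb : b < N) :
    dd v (fun c => x c * ∏ m ∈ range a, (un v c - un v m)) b =
      ∑ k ∈ Icc a b, Lagrange.nodalWeight (Icc a b) (un v) k * x k := by
  unfold dd
  have hsub : Icc a b ⊆ range (b + 1) := by
    intro k hk
    rw [Finset.mem_Icc] at hk
    rw [Finset.mem_range]
    omega
  rw [← Finset.sum_subset hsub]
  · refine Finset.sum_congr rfl fun k hk => ?_
    rw [Finset.mem_Icc] at hk
    have h1 : ∏ j ∈ (range (b + 1)).erase k, (un v k - un v j) =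
        (∏ m ∈ range a, (un v k - un v m)) * ∏ j ∈ (Icc a b).erase k, (un v k - un v j) := by
      rw [← Finset.prod_union]
      · congr 1
        ext j
        simp only [Finset.mem_erase, Finset.mem_range, Finset.mem_union, Finset.mem_Icc]
        omega
      · rw [Finset.disjoint_left]
        intro j hj hj2
        simp only [Finset.mem_erase, Finset.mem_range, Finset.mem_Icc] at hj hj2
        omega
    have h2 : ∏ m ∈ range a, (un v k - un v m) ≠ 0 := by
      refine Finset.prod_ne_zero_iff.2 fun m hm => ?_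
      rw [Finset.mem_range] at hm
      intro h
      have := hinj (Finset.mem_coe.2 (Finset.mem_range.2 (by omega : k < N)))
        (Finset.mem_coe.2 (Finset.mem_range.2 (by omega : m < N))) (sub_eq_zero.1 h)
      omega
    rw [h1, Lagrange.nodalWeight, Finset.prod_inv_distrib, mul_comm (∏ m ∈ range a, _) (∏ j ∈ _, _),
      mul_div_mul_right _ _ h2, div_eq_inv_mul]
  · intro k hk hk2
    rw [Finset.mem_range] at hk
    rw [Finset.mem_Icc] at hk2
    have h1 : ∏ m ∈ range a, (un v k - un v m) = 0 :=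
      Finset.prod_eq_zero (Finset.mem_range.2 (by omega : k < a)) (sub_self _)
    simp only [h1, mul_zero, zero_div]

theorem prod_lim' {N : ℕ} (hN : 0 < N) (a : ℕ) (ψ : ℂ) :
    ∏ m ∈ range a, (-2 * Complex.cos ψ - un (vN N) m) = (-1) ^ a * Rp N a ψ := by
  unfold Rp
  have h : ∀ m ∈ range a, (-2 * Complex.cos ψ - un (vN N) m) =
      -(2 * Complex.cos ψ + 2 * (Real.cos (Pool.Agent.W711.HT.phi N m) : ℂ)) := by
    intro m _
    rw [Pool.Agent.W885.AR.un_vN hN]
    have h2 : Pool.Agent.W711.HT.phi N m = ps N m + π := by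
      unfold Pool.Agent.W711.HT.phi ps
      have hN0 : (N : ℝ) ≠ 0 := by exact_mod_cast hN.ne'
      field_simp
      ring
    rw [h2, Real.cos_add_pi]
    push_cast
    ring
  rw [Finset.prod_congr rfl h, Finset.prod_neg, Finset.card_range]

theorem uu_un {N : ℕ} (hN : 2 ≤ N) {k : ℕ} (hk : k < N) :
    uu (vN N) (-1) k = un (vN N) (N - 1 - k) := by
  have hv0 : vN N ≠ 0 := Complex.exp_ne_zero _
  have hR := (Pool.Agent.Y195.CB.rtv N hN).neg
  have h2N : vN N ^ ((2 * N : ℕ) : ℤ) = 1 := by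
    rw [zpow_natCast, mul_comm, pow_mul, hR]
    norm_num
  have h1 : vN N ^ (-1 - 2 * (k : ℤ)) = vN N ^ (2 * ((N - 1 - k : ℕ) : ℤ) + 1) := by
    have : (2 * ((N - 1 - k : ℕ) : ℤ) + 1) = (-1 - 2 * (k : ℤ)) + ((2 * N : ℕ) : ℤ) := by omega
    rw [this, zpow_add₀ hv0, h2N, mul_one]
  unfold uu un
  rw [neg_one_sq, one_mul, h1, _root_.zpow_neg]

theorem nodal_refl {N : ℕ} (hN : 2 ≤ N) {i j : ℕ} (hij : i ≤ j) (hj : j < N) :
    Lagrange.nodal (Icc i j) (uu (vN N) (-1)) =
      Lagrange.nodal (Icc (N - 1 - j) (N - 1 - i)) (un (vN N)) := by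
  unfold Lagrange.nodal
  refine Finset.prod_bij' (fun k _ => N - 1 - k) (fun k _ => N - 1 - k) ?_ ?_ ?_ ?_ ?_
  · intro k hk
    rw [Finset.mem_Icc] at hk ⊢
    omega
  · intro k hk
    rw [Finset.mem_Icc] at hk ⊢
    omega
  · intro k hk
    rw [Finset.mem_Icc] at hk
    show N - 1 - (N - 1 - k) = k
    omega
  · intro k hk
    rw [Finset.mem_Icc] at hk
    show N - 1 - (N - 1 - k) = k
    omega
  · intro k hk
    rw [Finset.mem_Icc] at hk
    rw [uu_un hN (by omega)]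

/-- the value of the divided difference at the root of unity -/
theorem value {N : ℕ} (hN : 2 ≤ N) (t : Tb) (ht : t.bl = false) {i j : ℕ} (hij : i ≤ j)
    (hj : j < N) :
    DD N (Icc i j).card (Lagrange.nodal (Icc i j) (uu (vN N) (-1))) (PL N t) =
      (Complex.I * Kt N t) * Pool.Agent.Y481.DR.cV N (Pool.Agent.Y481.DR.tv t) i j := by
  obtain ⟨a, ha⟩ : ∃ a, a = N - 1 - j := ⟨_, rfl⟩
  obtain ⟨b, hb⟩ : ∃ b, b = N - 1 - i := ⟨_, rfl⟩
  have hcard : (Icc i j).card = (Icc a b).card := by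
    rw [Nat.card_Icc, Nat.card_Icc]
    omega
  rw [nodal_refl hN hij hj, hcard, ← ha, ← hb]
  have h1 : Tendsto (fun v => DD N (Icc a b).card (Lagrange.nodal (Icc a b) (un v))
      (NP N v (dd v (evb N v t)))) (𝓝[≠] vN N)
      (𝓝 (DD N (Icc a b).card (Lagrange.nodal (Icc a b) (un (vN N))) (PL N t))) :=
    DD_tendsto (nodal_PT _ fun k _ => un_tend N k) (PT_PL hN t) N _
  have hLm : Lm N (fun v c => evb N v t c * ∏ m ∈ range a, (un v c - un v m))
      (fun ψ => Kt N t * (Eb t.bl t.wt N ψ * XX t N ψ) *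
        ∏ m ∈ range a, (-2 * Complex.cos ψ - un (vN N) m)) := by
    refine Pool.Agent.W885.AR.lm_mul (lm_t hN t) ?_
    refine Pool.Agent.W885.AR.lm_prod (range a) (fun m v c => un v c - un v m)
      (fun m ψ => -2 * Complex.cos ψ - un (vN N) m) ?_
    intro m _
    have h2 := Pool.Agent.W885.AR.lm_add (Pool.Agent.W885.AR.lm_un hN)
      (Pool.Agent.W885.AR.lm_const N (fun v => - un v m) (- un (vN N) m) (un_tend N m).neg)
    simpa [sub_eq_add_neg] using h2
  have h3 := Pool.Agent.W490.AR.lmd N _ _ hN hLm b (by omega)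
  have h4 := tendsto_nhds_unique h1 (h3.congr' ?_)
  · rw [h4]
    have e1 : N - 1 - b = i := by omega
    have e2 : (fun ψ => Kt N t * (Eb t.bl t.wt N ψ * XX t N ψ) *
        (∏ m ∈ range a, (-2 * Complex.cos ψ - un (vN N) m)) * Rp N i ψ * kr N ψ) =
        fun ψ => (Kt N t * (-1) ^ a) * (Ea t.wt N ψ * XX t N ψ * Rp N a ψ * Rp N i ψ * kr N ψ) := by
      funext ψ
      rw [prod_lim' (by omega)]
      unfold Eb
      rw [ht]
      simp only [Bool.false_eq_true, if_false]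
      ring
    rw [e1, e2, Pool.Agent.W803.AR.upp_mul]
    unfold Pool.Agent.Y481.DR.cV Pool.Agent.Y481.DR.tv
    rw [← ha, pow_add]
    ring
  · filter_upwards [un_inj_ev N] with v hv
    rw [dd_shift hv _ (by omega : a ≤ b) (by omega),
      ← DD_eq (Finset.nonempty_Icc.2 (by omega)) (hv.mono ?_) (NP_deg (by omega) _ _)]
    · refine Finset.sum_congr rfl fun k hk => ?_
      rw [Finset.mem_Icc] at hk
      rw [NP_eval hv _ (by omega)]
    · intro k hk
      rw [Finset.mem_coe, Finset.mem_Icc] at hk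
      rw [Finset.mem_coe, Finset.mem_range]
      omega

theorem norm_Kt {N : ℕ} (t : Tb) : ‖Kt N t‖ = ((N : ℝ) ^ 2 / (2 * π)) ^ t.ne := by
  unfold Kt
  have h1 : ‖kb N‖ = 1 := by
    unfold kb
    have : (2 * π * Complex.I / N : ℂ) = ((2 * π / N : ℝ) : ℂ) * Complex.I := by
      push_cast
      ring
    rw [this, Complex.norm_exp_ofReal_mul_I]
  rw [norm_mul, norm_mul, norm_zpow, norm_pow, norm_pow, norm_mul, norm_pow,
    Pool.Agent.W803.AR.norm_kp, h1, Pool.Agent.W803.AR.norm_c, norm_neg, norm_one]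
  simp

/-- TPL -/
theorem tpl : Pool.Agent.Y481.DR.S_TPL := by
  intro t N hN ht
  refine ⟨PL N t, Complex.I * Kt N t, ?_, op_PL hN t, ?_⟩
  · rw [norm_mul, Complex.norm_I, one_mul, norm_Kt]
  · intro i j hij hj
    have hN0 : 0 < N := by omega
    refine ⟨fun ε => DD N (Icc i j).card (Lagrange.nodal (Icc i j)
      (uu (vN N) (-Complex.exp ε))) (PL N t), ?_, ?_, ?_⟩
    · refine DD_diff (PD.prod fun k _ => ?_) _ _ _
      have e : (fun ε => uu (vN N) (-Complex.exp ε) k) =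
          fun ε => 2 * Complex.cos (Pool.Agent.Y686.CB.zn N ε k) := by
        funext ε
        exact Pool.Agent.Y686.CB.uu_eq hN0 ε k
      rw [e]
      unfold Pool.Agent.Y686.CB.zn
      fun_prop
    · simp only [Complex.exp_zero]
      exact value hN t ht hij hj
    · filter_upwards [Pool.Agent.Y686.CB.small_ev hN0, self_mem_nhdsWithin] with ε h2 h3
      have h3' : ε ≠ 0 := h3
      have hinj : Set.InjOn (uu (vN N) (-Complex.exp ε)) (Icc i j) := by
        intro k hk m hm h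
        rw [Finset.mem_coe, Finset.mem_Icc] at hk hm
        rw [Pool.Agent.Y686.CB.uu_eq hN0, Pool.Agent.Y686.CB.uu_eq hN0] at h
        exact Pool.Agent.Y686.CB.zn_inj hN0 h3' h2 (by omega) (by omega)
          (mul_left_cancel₀ two_ne_zero h)
      have hP : (PL N t).natDegree < N := NP_deg hN0 _ _
      exact (DD_eq (Finset.nonempty_Icc.2 hij) hinj hP).symm

end Pool.Agent.Y624.DR
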