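import Mathlib

/-!
# Divided differences of polynomials as polynomial functions of the nodes
-/

set_option autoImplicit false

namespace Pool.Agent.Y624.DR

open Finset Filter Topology Polynomial

/-- coefficients of the remainder of `X ^ m` modulo the monic polynomial `M` of degree `d` -/
noncomputable def rr (d : ℕ) (M : ℂ[X]) : ℕ → ℕ → ℂ
  | 0, k => if k = 0 then 1 else 0
  | m + 1, k => (if k = 0 then 0 else rr d M m (k - 1)) - rr d M m (d - 1) * M.coeff k

/-- leading coefficient of the remainder of `P` modulo `M` -/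
noncomputable def DD (K d : ℕ) (M P : ℂ[X]) : ℂ := ∑ m ∈ range K, P.coeff m * rr d M m (d - 1)

lemma rr_pow {d : ℕ} (hd : 0 < d) {M : ℂ[X]} (hM : M.Monic) (hdeg : M.natDegree = d) {y : ℂ}
    (hy : M.eval y = 0) (m : ℕ) : y ^ m = ∑ l ∈ range d, rr d M m l * y ^ l := by
  induction m with
  | zero =>
    simp only [rr]
    rw [Finset.sum_eq_single 0]
    · simp
    · intro b _ hb
      rw [if_neg hb, zero_mul]
    · intro h
      exact absurd (Finset.mem_range.2 hd) h
  | succ m ih =>
    have h1 : y ^ d = -∑ l ∈ range d, M.coeff l * y ^ l := by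
      rw [Polynomial.eval_eq_sum_range, hdeg, Finset.sum_range_succ] at hy
      have h2 : M.coeff d = 1 := by rw [← hdeg]; exact hM.coeff_natDegree
      rw [h2, one_mul] at hy
      linear_combination hy
    obtain ⟨e, rfl⟩ : ∃ e, d = e + 1 := ⟨d - 1, by omega⟩
    rw [pow_succ, ih, Finset.sum_mul]
    simp only [rr, Nat.add_sub_cancel]
    have h3 : ∀ x ∈ range (e + 1), ((if x = 0 then 0 else rr (e + 1) M m (x - 1)) -
        rr (e + 1) M m e * M.coeff x) * y ^ x =
        (if x = 0 then 0 else rr (e + 1) M m (x - 1)) * y ^ x -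
        rr (e + 1) M m e * (M.coeff x * y ^ x) := by
      intro x _
      ring
    rw [Finset.sum_congr rfl h3, Finset.sum_sub_distrib, ← Finset.mul_sum]
    have h4 : ∑ x ∈ range (e + 1), (if x = 0 then 0 else rr (e + 1) M m (x - 1)) * y ^ x =
        ∑ x ∈ range e, rr (e + 1) M m x * y ^ (x + 1) := by
      rw [Finset.sum_range_succ']
      simp
    rw [h4, Finset.sum_range_succ]
    have h5 : ∑ x ∈ range e, rr (e + 1) M m x * y ^ x * y =
        ∑ x ∈ range e, rr (e + 1) M m x * y ^ (x + 1) :=
      Finset.sum_congr rfl fun x _ => by rw [pow_succ]; ring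
    rw [h5]
    have h6 : rr (e + 1) M m e * y ^ e * y = rr (e + 1) M m e * y ^ (e + 1) := by
      rw [pow_succ]; ring
    rw [h6, h1]
    ring

lemma sum_nodalWeight_pow {S : Finset ℕ} (hS : S.Nonempty) {y : ℕ → ℂ} (hinj : Set.InjOn y S)
    {l : ℕ} (hl : l < S.card) :
    ∑ k ∈ S, Lagrange.nodalWeight S y k * y k ^ l = if l = S.card - 1 then 1 else 0 := by
  have h1 := Lagrange.coeff_eq_sum (s := S) (v := y) hinj (P := (X : ℂ[X]) ^ l)
    (by rw [Polynomial.degree_X_pow]; exact_mod_cast hl)
  rw [Polynomial.coeff_X_pow] at h1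
  have h2 : (if l = S.card - 1 then (1 : ℂ) else 0) = if S.card - 1 = l then 1 else 0 := by
    simp only [eq_comm]
  rw [h2, h1]
  apply Finset.sum_congr rfl
  intro k _
  rw [Lagrange.nodalWeight, Finset.prod_inv_distrib, div_eq_inv_mul, Polynomial.eval_pow,
    Polynomial.eval_X]

/-- divided differences of a polynomial -/
lemma DD_eq {S : Finset ℕ} (hS : S.Nonempty) {y : ℕ → ℂ} (hinj : Set.InjOn y S) {P : ℂ[X]} {K : ℕ}
    (hP : P.natDegree < K) :
    ∑ k ∈ S, Lagrange.nodalWeight S y k * P.eval (y k) = DD K S.card (Lagrange.nodal S y) P := by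
  have hd : 0 < S.card := Finset.card_pos.2 hS
  have h1 : ∀ k ∈ S, P.eval (y k) = ∑ m ∈ range K, P.coeff m *
      ∑ l ∈ range S.card, rr S.card (Lagrange.nodal S y) m l * y k ^ l := by
    intro k hk
    rw [Polynomial.eval_eq_sum_range' hP]
    refine Finset.sum_congr rfl fun m _ => ?_
    rw [← rr_pow hd (Lagrange.nodal_monic) (Lagrange.natDegree_nodal)
      (Lagrange.eval_nodal_at_node hk) m]
  unfold DD
  calc ∑ k ∈ S, Lagrange.nodalWeight S y k * P.eval (y k) =
      ∑ k ∈ S, ∑ m ∈ range K, ∑ l ∈ range S.card, P.coeff m *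
        rr S.card (Lagrange.nodal S y) m l * (Lagrange.nodalWeight S y k * y k ^ l) := by
        refine Finset.sum_congr rfl fun k hk => ?_
        rw [h1 k hk, Finset.mul_sum]
        refine Finset.sum_congr rfl fun m _ => ?_
        rw [Finset.mul_sum, Finset.mul_sum]
        refine Finset.sum_congr rfl fun l _ => ?_
        ring
    _ = ∑ m ∈ range K, ∑ l ∈ range S.card, P.coeff m *
        rr S.card (Lagrange.nodal S y) m l * ∑ k ∈ S, Lagrange.nodalWeight S y k * y k ^ l := by
        rw [Finset.sum_comm]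
        refine Finset.sum_congr rfl fun m _ => ?_
        rw [Finset.sum_comm]
        refine Finset.sum_congr rfl fun l _ => ?_
        rw [Finset.mul_sum]
    _ = _ := by
        refine Finset.sum_congr rfl fun m _ => ?_
        rw [Finset.sum_eq_single (S.card - 1)]
        · rw [sum_nodalWeight_pow hS hinj (by omega), if_pos rfl, mul_one]
        · intro l hl hne
          rw [Finset.mem_range] at hl
          rw [sum_nodalWeight_pow hS hinj hl, if_neg hne, mul_zero]
        · intro h
          exact absurd (Finset.mem_range.2 (by omega)) h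

/-! ### Convergence of polynomials -/

/-- convergence of all coefficients -/
def PT (l : Filter ℂ) (f : ℂ → ℂ[X]) (P : ℂ[X]) : Prop :=
  ∀ m, Tendsto (fun v => (f v).coeff m) l (𝓝 (P.coeff m))

lemma PT.const (l : Filter ℂ) (P : ℂ[X]) : PT l (fun _ => P) P := fun _ => tendsto_const_nhds

lemma PT.C {l : Filter ℂ} {f : ℂ → ℂ} {a : ℂ} (h : Tendsto f l (𝓝 a)) :
    PT l (fun v => Polynomial.C (f v)) (Polynomial.C a) := by
  intro m
  simp only [Polynomial.coeff_C]
  by_cases hm : m = 0
  · simp only [if_pos hm]; exact h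
  · simp only [if_neg hm]; exact tendsto_const_nhds

lemma PT.add {l : Filter ℂ} {f g : ℂ → ℂ[X]} {P Q : ℂ[X]} (hf : PT l f P) (hg : PT l g Q) :
    PT l (fun v => f v + g v) (P + Q) := by
  intro m
  simp only [Polynomial.coeff_add]
  exact (hf m).add (hg m)

lemma PT.sub {l : Filter ℂ} {f g : ℂ → ℂ[X]} {P Q : ℂ[X]} (hf : PT l f P) (hg : PT l g Q) :
    PT l (fun v => f v - g v) (P - Q) := by
  intro m
  simp only [Polynomial.coeff_sub]
  exact (hf m).sub (hg m)

lemma PT.mul {l : Filter ℂ} {f g : ℂ → ℂ[X]} {P Q : ℂ[X]} (hf : PT l f P) (hg : PT l g Q) :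
    PT l (fun v => f v * g v) (P * Q) := by
  intro m
  simp only [Polynomial.coeff_mul]
  exact tendsto_finsetSum _ fun x _ => (hf x.1).mul (hg x.2)

lemma PT.sum {l : Filter ℂ} (s : Finset ℕ) {f : ℕ → ℂ → ℂ[X]} {P : ℕ → ℂ[X]}
    (h : ∀ i ∈ s, PT l (f i) (P i)) : PT l (fun v => ∑ i ∈ s, f i v) (∑ i ∈ s, P i) := by
  intro m
  simp only [Polynomial.finsetSum_coeff]
  exact tendsto_finsetSum _ fun x hx => h x hx m

lemma PT.prod {l : Filter ℂ} (s : Finset ℕ) {f : ℕ → ℂ → ℂ[X]} {P : ℕ → ℂ[X]}
    (h : ∀ i ∈ s, PT l (f i) (P i)) : PT l (fun v => ∏ i ∈ s, f i v) (∏ i ∈ s, P i) := by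
  classical
  induction s using Finset.induction_on with
  | empty => simpa using PT.const l 1
  | insert a s ha ih =>
    have h1 := (h a (mem_insert_self a s)).mul (ih fun i hi => h i (mem_insert_of_mem hi))
    simpa [prod_insert ha] using h1

lemma rr_tendsto {l : Filter ℂ} {f : ℂ → ℂ[X]} {M : ℂ[X]} (hf : PT l f M) (d m : ℕ) :
    ∀ k, Tendsto (fun v => rr d (f v) m k) l (𝓝 (rr d M m k)) := by
  induction m with
  | zero => intro k; simp only [rr]; exact tendsto_const_nhds
  | succ m ih =>
    intro k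
    simp only [rr]
    refine Tendsto.sub ?_ ((ih (d - 1)).mul (hf k))
    by_cases hk : k = 0
    · simp only [if_pos hk]; exact tendsto_const_nhds
    · simp only [if_neg hk]; exact ih (k - 1)

lemma DD_tendsto {l : Filter ℂ} {f g : ℂ → ℂ[X]} {M P : ℂ[X]} (hf : PT l f M) (hg : PT l g P)
    (K d : ℕ) : Tendsto (fun v => DD K d (f v) (g v)) l (𝓝 (DD K d M P)) := by
  unfold DD
  exact tendsto_finsetSum _ fun m _ => (hg m).mul (rr_tendsto hf d m _)

/-! ### Differentiability -/

/-- the coefficients are differentiable -/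
def PD (f : ℂ → ℂ[X]) (z : ℂ) : Prop := ∀ m, DifferentiableAt ℂ (fun v => (f v).coeff m) z

lemma PD.prod {s : Finset ℕ} {y : ℂ → ℕ → ℂ} {z : ℂ}
    (h : ∀ i ∈ s, DifferentiableAt ℂ (fun v => y v i) z) : PD (fun v => Lagrange.nodal s (y v)) z := by
  classical
  induction s using Finset.induction_on with
  | empty =>
    intro m
    simp only [Lagrange.nodal_empty]
    exact differentiableAt_const _
  | insert a s ha ih =>
    have h1 := ih fun i hi => h i (mem_insert_of_mem hi)
    have h2 := h a (mem_insert_self a s)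
    intro m
    have h3 : (fun v => (Lagrange.nodal (insert a s) (y v)).coeff m) = fun v =>
        (if m = 0 then 0 else (Lagrange.nodal s (y v)).coeff (m - 1)) -
          y v a * (Lagrange.nodal s (y v)).coeff m := by
      funext v
      rw [Lagrange.nodal_insert_eq_nodal ha, sub_mul, Polynomial.coeff_sub, Polynomial.coeff_C_mul]
      congr 1
      rcases m with _ | m
      · simp
      · simp [Polynomial.coeff_X_mul]
    rw [h3]
    refine DifferentiableAt.sub ?_ (h2.mul (h1 m))
    by_cases hm : m = 0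
    · simp only [if_pos hm]; exact differentiableAt_const _
    · simp only [if_neg hm]; exact h1 (m - 1)

lemma rr_diff {f : ℂ → ℂ[X]} {z : ℂ} (hf : PD f z) (d m : ℕ) :
    ∀ k, DifferentiableAt ℂ (fun v => rr d (f v) m k) z := by
  induction m with
  | zero => intro k; simp only [rr]; exact differentiableAt_const _
  | succ m ih =>
    intro k
    simp only [rr]
    refine DifferentiableAt.sub ?_ ((ih (d - 1)).mul (hf k))
    by_cases hk : k = 0
    · simp only [if_pos hk]; exact differentiableAt_const _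
    · simp only [if_neg hk]; exact ih (k - 1)

lemma DD_diff {f : ℂ → ℂ[X]} {z : ℂ} (hf : PD f z) (P : ℂ[X]) (K d : ℕ) :
    DifferentiableAt ℂ (fun v => DD K d (f v) P) z := by
  unfold DD
  exact DifferentiableAt.fun_sum fun m _ => (rr_diff hf d m _).const_mul _

end Pool.Agent.Y624.DR
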